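import Mathlib
import Pool.Agent.Helper66.DC.Goals3
import Pool.Agent.Helper81.DC.DIV
import Pool.Agent.Helper13.DC.X
import Pool.Agent.Helper50.DC.JET

/-!
Packet DC3-CL: the second derivatives of the family `c`.
-/

namespace Pool.Agent.Helper87.DC

open MvPolynomial Finset ComplexConjugate Pool.Agent.Helper69.DC Pool.Agent.Helper66.DC
open Pool.Agent.Helper50.DC (LL eval_LL LL_X LL_C eval_aeval' sum_conj_self sum_sq_pos)

variable {m N : ℕ}

theorem eval_gam {ι : Type} (β w : ι → ℂ) (h : MvPolynomial ι ℂ) (l : ℕ) :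
    eval (Sum.elim β w) (gam h l) = (LL β w h).coeff l := by
  have e : (Polynomial.mapAlgHom (aeval (Sum.elim β w) :
      MvPolynomial (ι ⊕ ι) ℂ →ₐ[ℂ] ℂ)).comp
      (aeval (fun j => Polynomial.C (X (Sum.inl j)) + Polynomial.C (X (Sum.inr j)) *
        Polynomial.X) : MvPolynomial ι ℂ →ₐ[ℂ] Polynomial (MvPolynomial (ι ⊕ ι) ℂ)) =
      LL β w := by
    apply MvPolynomial.algHom_ext
    intro j
    rw [AlgHom.comp_apply, aeval_X, LL_X]
    simp
  have e1 := DFunLike.congr_fun e h
  rw [← e1, AlgHom.comp_apply]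
  unfold gam
  rw [Polynomial.coe_mapAlgHom, Polynomial.coeff_map]
  rfl

/-- The translation. -/
noncomputable def tr (β : Fin m → ℂ) : MvPolynomial (Fin m) ℂ →ₐ[ℂ] MvPolynomial (Fin m) ℂ :=
  aeval fun i => X i + C (β i)

theorem tr_tr (β : Fin m → ℂ) (h : MvPolynomial (Fin m) ℂ) : tr (fun i => - β i) (tr β h) = h := by
  have e : (tr (fun i => - β i)).comp (tr β) = AlgHom.id ℂ _ := by
    apply MvPolynomial.algHom_ext
    intro j
    rw [AlgHom.comp_apply, tr, tr, aeval_X, map_add, aeval_X]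
    simp
  exact DFunLike.congr_fun e h

theorem eval_tr (β w : Fin m → ℂ) (h : MvPolynomial (Fin m) ℂ) :
    eval w (tr β h) = eval (fun i => β i + w i) h := by
  rw [tr, eval_aeval']
  congr 2
  funext i
  simp [add_comm]

theorem tr_xp (β v : Fin m → ℂ) : tr β (xp β v) = lf v := by
  unfold xp lf tr
  rw [map_sum]
  refine Finset.sum_congr rfl fun i _ => ?_
  rw [map_mul, map_sub, aeval_X]
  simp

theorem tr_lf (β v : Fin m → ℂ) : tr (fun i => - β i) (lf v) = xp β v := by
  rw [← tr_xp β v, tr_tr]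

theorem xp_zero (v : Fin m → ℂ) : xp (fun _ => (0 : ℂ)) v = lf v := by
  unfold xp lf
  simp

theorem eval_lf (w v : Fin m → ℂ) : eval w (lf v) = ∑ i, w i * conj (v i) := by
  unfold lf
  rw [map_sum]
  refine Finset.sum_congr rfl fun i _ => ?_
  simp [mul_comm]

theorem ip_self {u : Fin m → ℂ} (hu : u ≠ 0) : ∑ i, u i * conj (u i) ≠ 0 := by
  rw [sum_conj_self]
  have := sum_sq_pos hu
  exact_mod_cast this.ne'

/-- The polynomial `H(w, ζ)`. -/
noncomputable def HH (β : Fin m → ℂ) (g c : Fin (N + 1) → MvPolynomial (Fin m) ℂ) :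
    MvPolynomial (Fin m ⊕ Fin m) ℂ :=
  rename Sum.inl (tr β (g 0)) * rename Sum.inr (map (starRingEnd ℂ) (c 0)) -
    ∑ j : Fin N, rename Sum.inl (tr β (g j.succ)) *
      rename Sum.inr (map (starRingEnd ℂ) (c j.succ))

theorem eval_cj (ζ : Fin m → ℂ) (P : MvPolynomial (Fin m) ℂ) :
    eval ζ (map (starRingEnd ℂ) P) = conj (eval (fun i => conj (ζ i)) P) := by
  induction P using MvPolynomial.induction_on with
  | C a => simp
  | add p q hp hq => simp [hp, hq]
  | mul_X p i hp => simp [hp]

theorem HH_zeta (β : Fin m → ℂ) (g c : Fin (N + 1) → MvPolynomial (Fin m) ℂ) (ζ : Fin m → ℂ) :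
    (aeval (Sum.elim X fun i => C (ζ i)) (HH β g c) : MvPolynomial (Fin m) ℂ) =
      tr β (hfc g (ev c fun i => conj (ζ i))) := by
  have h1 : ∀ P : MvPolynomial (Fin m) ℂ,
      (aeval (Sum.elim X fun i => C (ζ i)) (rename Sum.inl P : MvPolynomial (Fin m ⊕ Fin m) ℂ) :
        MvPolynomial (Fin m) ℂ) = P := by
    intro P
    rw [aeval_rename, Sum.elim_comp_inl, aeval_X_left_apply]
  have h2 : ∀ P : MvPolynomial (Fin m) ℂ,
      (aeval (Sum.elim X fun i => C (ζ i)) (rename Sum.inr P : MvPolynomial (Fin m ⊕ Fin m) ℂ) :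
        MvPolynomial (Fin m) ℂ) = C (eval ζ P) := by
    intro P
    rw [aeval_rename, Sum.elim_comp_inr]
    induction P using MvPolynomial.induction_on with
    | C a => simp
    | add p q hp hq => rw [map_add, hp, hq, map_add, map_add]
    | mul_X p i hp => rw [map_mul, hp, aeval_X, map_mul, map_mul, eval_X]
  have h3 : ∀ a : ℂ, tr β (C a) = C a := fun a => (tr β).commutes a
  unfold HH hfc ev
  simp only [map_sub, map_sum, map_mul, h1, h2, h3, eval_cj]
  congr 1
  · ring
  · exact Finset.sum_congr rfl fun j _ => by ring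

theorem HH_w (β : Fin m → ℂ) (g c : Fin (N + 1) → MvPolynomial (Fin m) ℂ) (w : Fin m → ℂ) :
    (aeval (Sum.elim (fun i => C (w i)) X) (HH β g c) : MvPolynomial (Fin m) ℂ) =
      C (eval (fun i => β i + w i) (g 0)) * map (starRingEnd ℂ) (c 0) -
        ∑ j : Fin N, C (eval (fun i => β i + w i) (g j.succ)) *
          map (starRingEnd ℂ) (c j.succ) := by
  have h1 : ∀ P : MvPolynomial (Fin m) ℂ,
      (aeval (Sum.elim (fun i => C (w i)) X) (rename Sum.inr P :
        MvPolynomial (Fin m ⊕ Fin m) ℂ) : MvPolynomial (Fin m) ℂ) = P := by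
    intro P
    rw [aeval_rename, Sum.elim_comp_inr, aeval_X_left_apply]
  have h2 : ∀ P : MvPolynomial (Fin m) ℂ,
      (aeval (Sum.elim (fun i => C (w i)) X) (rename Sum.inl P :
        MvPolynomial (Fin m ⊕ Fin m) ℂ) : MvPolynomial (Fin m) ℂ) = C (eval w P) := by
    intro P
    rw [aeval_rename, Sum.elim_comp_inl]
    induction P using MvPolynomial.induction_on with
    | C a => simp
    | add p q hp hq => rw [map_add, hp, hq, map_add, map_add]
    | mul_X p i hp => rw [map_mul, hp, aeval_X, map_mul, map_mul, eval_X]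
  unfold HH
  simp only [map_sub, map_sum, map_mul, h1, h2, eval_tr]

theorem d2_sub (u u' v : Fin m → ℂ) (P Q : MvPolynomial (Fin m) ℂ) :
    d2 u u' v (P - Q) = d2 u u' v P - d2 u u' v Q := by
  unfold d2
  simp only [map_sub, mul_sub, Finset.sum_sub_distrib]

theorem d2_C_mul (u u' v : Fin m → ℂ) (a : ℂ) (P : MvPolynomial (Fin m) ℂ) :
    d2 u u' v (C a * P) = a * d2 u u' v P := by
  unfold d2
  rw [Finset.mul_sum]
  refine Finset.sum_congr rfl fun p _ => ?_
  rw [Finset.mul_sum]
  refine Finset.sum_congr rfl fun r _ => ?_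
  rw [← smul_eq_C_mul, Derivation.map_smul, Derivation.map_smul, smul_eval]
  ring

theorem d2_sum (u u' v : Fin m → ℂ) {κ : Type} (s : Finset κ) (P : κ → MvPolynomial (Fin m) ℂ) :
    d2 u u' v (∑ k ∈ s, P k) = ∑ k ∈ s, d2 u u' v (P k) := by
  classical
  induction s using Finset.induction_on with
  | empty => simp [d2]
  | insert a s ha ih =>
    rw [Finset.sum_insert ha, Finset.sum_insert ha, ← ih]
    unfold d2
    simp only [map_add, mul_add, Finset.sum_add_distrib]

theorem d2_cj (u u' v : Fin m → ℂ) (P : MvPolynomial (Fin m) ℂ) :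
    d2 (fun i => conj (u i)) (fun i => conj (u' i)) (fun i => conj (v i))
      (map (starRingEnd ℂ) P) = conj (d2 u u' v P) := by
  have hp : ∀ (i : Fin m) (Q : MvPolynomial (Fin m) ℂ), pderiv i (map (starRingEnd ℂ) Q) =
      map (starRingEnd ℂ) (pderiv i Q) := fun i Q => pderiv_map
  unfold d2
  simp only [map_sum, map_mul, hp, eval_cj, Complex.conj_conj]

/-- The second derivative of `ℓ² G` at a zero of the linear form `ℓ`. -/
theorem d2_sq (a b z w : Fin m → ℂ) (G : MvPolynomial (Fin m) ℂ) (hz : ∑ i, w i * z i = 0) :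
    d2 a b z ((∑ i, C (w i) * X i) ^ 2 * G) =
      2 * (∑ i, w i * a i) * (∑ i, w i * b i) * eval z G := by
  have hℓ : ∀ p : Fin m, pderiv p (∑ i, C (w i) * X i : MvPolynomial (Fin m) ℂ) = C (w p) := by
    intro p
    rw [map_sum, Finset.sum_eq_single p]
    · simp
    · intro j _ hj
      simp [pderiv_X_of_ne hj]
    · intro h
      exact absurd (mem_univ p) h
  have hev : eval z (∑ i, C (w i) * X i : MvPolynomial (Fin m) ℂ) = 0 := by
    rw [map_sum, ← hz]
    exact Finset.sum_congr rfl fun i _ => by simp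
  have key : ∀ p r : Fin m, eval z (pderiv p (pderiv r ((∑ i, C (w i) * X i) ^ 2 * G))) =
      2 * w p * w r * eval z G := by
    intro p r
    set ℓ : MvPolynomial (Fin m) ℂ := ∑ i, C (w i) * X i with hℓdef
    have e1 : pderiv r (ℓ ^ 2 * G) = 2 * (C (w r) * (ℓ * G)) + ℓ ^ 2 * pderiv r G := by
      rw [sq, Derivation.leibniz, Derivation.leibniz, hℓ]
      simp only [smul_eq_mul]
      ring
    have e2 : pderiv p (2 * (C (w r) * (ℓ * G)) + ℓ ^ 2 * pderiv r G) =
        2 * (C (w r) * (C (w p) * G + ℓ * pderiv p G)) + (2 * (C (w p) * (ℓ * pderiv r G)) +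
          ℓ ^ 2 * pderiv p (pderiv r G)) := by
      have e3 : pderiv p (2 * (C (w r) * (ℓ * G)) : MvPolynomial (Fin m) ℂ) =
          2 * (C (w r) * (C (w p) * G + ℓ * pderiv p G)) := by
        have e4 : (2 * (C (w r) * (ℓ * G)) : MvPolynomial (Fin m) ℂ) = C (2 * w r) * (ℓ * G) := by
          rw [C_mul, map_ofNat]
          ring
        rw [e4, ← smul_eq_C_mul, Derivation.map_smul, smul_eq_C_mul, Derivation.leibniz, hℓ,
          C_mul, map_ofNat]
        simp only [smul_eq_mul]
        ring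
      have e5 : pderiv p (ℓ ^ 2 * pderiv r G) = 2 * (C (w p) * (ℓ * pderiv r G)) +
          ℓ ^ 2 * pderiv p (pderiv r G) := by
        rw [sq, Derivation.leibniz, Derivation.leibniz, hℓ]
        simp only [smul_eq_mul]
        ring
      rw [map_add, e3, e5]
    rw [e1, e2]
    simp only [map_add, map_mul, map_pow, hev, eval_C, map_ofNat]
    ring
  unfold d2
  simp only [key]
  rw [mul_assoc 2, Finset.sum_mul_sum, Finset.mul_sum, Finset.sum_mul]
  refine Finset.sum_congr rfl fun p _ => ?_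
  rw [Finset.mul_sum, Finset.sum_mul]
  refine Finset.sum_congr rfl fun r _ => ?_
  ring

/-- The Hermitian product with a fixed vector along a line. -/
noncomputable def QQ (β w : Fin m → ℂ) (g : Fin (N + 1) → MvPolynomial (Fin m) ℂ)
    (z : Fin (N + 1) → ℂ) : Polynomial ℂ :=
  Polynomial.C (conj (z 0)) * LL β w (g 0) -
    ∑ j : Fin N, Polynomial.C (conj (z j.succ)) * LL β w (g j.succ)

theorem QQ_eval (β w : Fin m → ℂ) (g : Fin (N + 1) → MvPolynomial (Fin m) ℂ)
    (z : Fin (N + 1) → ℂ) (t : ℂ) :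
    (QQ β w g z).eval t = hf (fun k => eval (fun i => β i + w i * t) (g k)) z := by
  unfold QQ hf
  rw [Polynomial.eval_sub, Polynomial.eval_finsetSum]
  simp only [Polynomial.eval_mul, Polynomial.eval_C, eval_LL]
  congr 1
  · ring
  · exact Finset.sum_congr rfl fun j _ => by ring

theorem QQ_coeff (β w : Fin m → ℂ) (g : Fin (N + 1) → MvPolynomial (Fin m) ℂ)
    (z : Fin (N + 1) → ℂ) (l : ℕ) :
    (QQ β w g z).coeff l = hf (fun k => eval (Sum.elim β w) (gam (g k) l)) z := by
  unfold QQ hf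
  rw [Polynomial.coeff_sub, Polynomial.finsetSum_coeff]
  simp only [Polynomial.coeff_C_mul, eval_gam]
  congr 1
  · ring
  · exact Finset.sum_congr rfl fun j _ => by ring

/-- **DC3-CL.** -/
theorem h_cl (h : J_GS) : Pool.Agent.Helper66.DC.J_CL := by
  intro m N β g c hm hdiv v u u' hv hu hu' huv hu'v
  -- the factorisation
  obtain ⟨G, hG⟩ : (∑ i : Fin m, X (Sum.inl i) * X (Sum.inr i) :
      MvPolynomial (Fin m ⊕ Fin m) ℂ) ^ 2 ∣ HH β g c := by
    refine h m 2 _ hm fun ζ _ => ?_
    rw [HH_zeta]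
    have h1 := map_dvd (tr β) (hdiv fun i => conj (ζ i))
    rw [map_pow, tr_xp] at h1
    have h2 : lf (fun i => conj (ζ i)) = ∑ i : Fin m, C (ζ i) * X i := by
      unfold lf
      exact Finset.sum_congr rfl fun i _ => by rw [Complex.conj_conj]
    rwa [h2] at h1
  have hwt : ∀ w : Fin m → ℂ, ∑ i, w i * conj (v i) = 0 →
      hf (fun k => eval (fun i => β i + w i) (g k)) (d2v u u' v c) =
        2 * (∑ i, w i * conj (u i)) * (∑ i, w i * conj (u' i)) *
          eval (Sum.elim w fun i => conj (v i)) G := by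
    intro w hw
    have h1 := HH_w β g c w
    rw [hG, map_mul, map_pow, map_sum] at h1
    have h2 : (∑ i : Fin m, (aeval (Sum.elim (fun i => C (w i)) X)
        (X (Sum.inl i) * X (Sum.inr i) : MvPolynomial (Fin m ⊕ Fin m) ℂ) :
          MvPolynomial (Fin m) ℂ)) = ∑ i : Fin m, C (w i) * X i := by
      refine Finset.sum_congr rfl fun i _ => ?_
      rw [map_mul, aeval_X, aeval_X, Sum.elim_inl, Sum.elim_inr]
    rw [h2] at h1
    have h3 := congrArg (d2 (fun i => conj (u i)) (fun i => conj (u' i)) fun i => conj (v i)) h1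
    rw [d2_sq _ _ _ _ _ hw, d2_sub, d2_sum, d2_C_mul, d2_cj] at h3
    simp only [d2_C_mul, d2_cj] at h3
    rw [eval_aeval'] at h3
    have h4 : (fun i => eval (fun i => conj (v i))
        ((Sum.elim (fun i => C (w i)) X : Fin m ⊕ Fin m → MvPolynomial (Fin m) ℂ) i)) =
        Sum.elim w fun i => conj (v i) := by
      funext i
      rcases i with i | i
      · simp
      · simp
    rw [h4] at h3
    rw [h3]
    rfl
  refine ⟨fun w hw hprod l => ?_, fun hall => ?_⟩
  · rw [← QQ_coeff]
    have h1 : QQ β w g (d2v u u' v c) = 0 := by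
      apply Polynomial.funext
      intro t
      rw [QQ_eval, Polynomial.eval_zero]
      have h2 : ∑ i, (w i * t) * conj (v i) = 0 := by
        have e : ∀ i, (w i * t) * conj (v i) = t * (w i * conj (v i)) := fun i => by ring
        rw [Finset.sum_congr rfl fun i _ => e i, ← Finset.mul_sum, hw, mul_zero]
      rw [hwt (fun i => w i * t) h2]
      have e1 : ∀ y : Fin m → ℂ, ∑ i, (w i * t) * conj (y i) = t * ∑ i, w i * conj (y i) := by
        intro y
        rw [Finset.mul_sum]
        exact Finset.sum_congr rfl fun i _ => by ring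
      rw [e1, e1]
      linear_combination (2 * t ^ 2 * eval (Sum.elim (fun i => w i * t) fun i => conj (v i)) G) *
        hprod
    rw [h1, Polynomial.coeff_zero]
  · -- the restriction of `G`
    set Gz : MvPolynomial (Fin m) ℂ := aeval (Sum.elim X fun i => C (conj (v i))) G with hGz
    have hGzev : ∀ w : Fin m → ℂ, eval w Gz = eval (Sum.elim w fun i => conj (v i)) G := by
      intro w
      rw [hGz, eval_aeval']
      congr 2
      funext i
      rcases i with i | i
      · simp
      · simp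
    have hvan : ∀ w : Fin m → ℂ, ∑ i, (w i - 0) * conj (v i) = 0 →
        eval w (lf u * (lf u' * Gz)) = 0 := by
      intro w hw
      simp only [sub_zero] at hw
      have h1 : QQ β w g (d2v u u' v c) = 0 := by
        ext l
        rw [QQ_coeff, hall w hw l, Polynomial.coeff_zero]
      have h2 := QQ_eval β w g (d2v u u' v c) 1
      rw [h1, Polynomial.eval_zero] at h2
      simp only [mul_one] at h2
      rw [hwt w hw] at h2
      rw [map_mul, map_mul, eval_lf, eval_lf, hGzev]
      have h3 : (2 : ℂ) ≠ 0 := two_ne_zero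
      have h4 : 2 * ((∑ i, w i * conj (u i)) * ((∑ i, w i * conj (u' i)) *
          eval (Sum.elim w fun i => conj (v i)) G)) = 0 := by
        rw [h2]
        ring
      exact (mul_eq_zero.1 h4).resolve_left h3
    obtain ⟨i, hi⟩ := Function.ne_iff.1 hv
    have hi' : v i ≠ 0 := hi
    have hd := Pool.Agent.Helper81.DC.dvd_of_vanish (fun _ => (0 : ℂ)) v i hi' _ hvan
    have hpr := Pool.Agent.Helper13.DC.prime_xp (fun _ => (0 : ℂ)) v hi'
    rw [xp_zero] at hd hpr
    have hno : ∀ y : Fin m → ℂ, y ≠ 0 → ∑ i, y i * conj (v i) = 0 → ¬ lf v ∣ lf y := by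
      rintro y hy hyv ⟨r, hr⟩
      have h1 := congrArg (eval y) hr
      rw [map_mul, eval_lf, eval_lf, hyv, zero_mul] at h1
      exact ip_self hy h1
    have hd2 := (hpr.dvd_or_dvd ((hpr.dvd_or_dvd hd).resolve_left (hno u hu huv))).resolve_left
      (hno u' hu' hu'v)
    obtain ⟨r, hr⟩ := hd2
    have h1 := HH_zeta β g c fun i => conj (v i)
    rw [hG, map_mul, map_pow, map_sum] at h1
    have h2 : (∑ i : Fin m, (aeval (Sum.elim X fun i => C (conj (v i)))
        (X (Sum.inl i) * X (Sum.inr i) : MvPolynomial (Fin m ⊕ Fin m) ℂ) :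
          MvPolynomial (Fin m) ℂ)) = lf v := by
      unfold lf
      refine Finset.sum_congr rfl fun i _ => ?_
      rw [map_mul, aeval_X, aeval_X, Sum.elim_inl, Sum.elim_inr, mul_comm]
    rw [h2, ← hGz, hr] at h1
    simp only [Complex.conj_conj] at h1
    have h3 := congrArg (tr fun i => - β i) h1
    rw [tr_tr, map_mul, map_pow, map_mul, tr_lf] at h3
    have h4 : hfc g (ev c v) = xp β v ^ 3 * tr (fun i => - β i) r := by
      rw [← h3]
      ring
    exact ⟨_, h4⟩

end Pool.Agent.Helper87.DC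

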